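import Pool.Agent.H341.FS.Iva
import Pool.Agent.H341.FS.FS_ATF

set_option autoImplicit false

/-!
# Ivanov's asphericity question for left-orderable `H`
-/

namespace Pool.Agent.Results.MP_11cd85_al.LeftOrderableH

open scoped Classical

/-- `G` has a left-invariant linear order -/
def LeftOrderable (G : Type) [Group G] : Prop :=
  ∃ lo : LinearOrder G, ∀ a b c : G, lo.lt a b → lo.lt (c * a) (c * b)

/-- the normal closure of the relators -/
abbrev N {X ι : Type} (rs : ι → FreeGroup X) : Subgroup (FreeGroup X) :=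
  Subgroup.normalClosure (Set.range rs)

/-- the presentation `⟨X | rs⟩` is aspherical: the relators freely generate the relation module
(the formulation of the frozen statement `S00761`) -/
def Aspherical {X ι : Type} (rs : ι → FreeGroup X) : Prop :=
  ∀ l : List (FreeGroup X × ι × ℤ),
    (l.map (fun t : FreeGroup X × ι × ℤ => (t.1 * rs t.2.1 * t.1⁻¹) ^ t.2.2)).prod ∈ ⁅N rs, N rs⁆ →
    ∀ (i : ι) (g : FreeGroup X),
      (l.map (fun t : FreeGroup X × ι × ℤ =>
        if t.2.1 = i ∧ g⁻¹ * t.1 ∈ N rs then t.2.2 else 0)).sum = 0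

/-- the group of the presentation `⟨X | rs⟩` is torsion-free -/
def TorsionFree {X ι : Type} (rs : ι → FreeGroup X) : Prop :=
  ∀ (w : FreeGroup X) (k : ℕ), 0 < k → w ^ k ∈ N rs → w ∈ N rs

section

variable {n m : ℕ} (rs : Fin m → FreeGroup (Fin n)) (r : FreeGroup (Option (Fin n)))

/-- the relators `rs` in the free group with the additional generator `x = none` -/
def old : Fin m → FreeGroup (Option (Fin n)) := fun i => FreeGroup.map some (rs i)

/-- the relators `rs`, `r` of the extended presentation -/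
def ext : Option (Fin m) → FreeGroup (Option (Fin n)) :=
  fun o => Option.elim o r (fun i => FreeGroup.map some (rs i))

/-- the total exponent of `x` in `r` -/
def exponent : ℤ :=
  Multiplicative.toAdd (FreeGroup.lift (fun a : Option (Fin n) =>
    if a = none then Multiplicative.ofAdd (1 : ℤ) else (1 : Multiplicative ℤ)) r)

/-- `r` is conjugate in `H * ⟨x⟩` to an element of `H = ⟨X | rs⟩` -/
def ConjugateIntoH : Prop :=
  ∃ (g : FreeGroup (Option (Fin n))) (h : FreeGroup (Fin n)),
    g * r * g⁻¹ * (FreeGroup.map some h)⁻¹ ∈ N (old rs)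

/-- `r` is a proper power in `H * ⟨x⟩` -/
def ProperPower : Prop :=
  ∃ (s : FreeGroup (Option (Fin n))) (k : ℕ), 2 ≤ k ∧ r * (s ^ k)⁻¹ ∈ N (old rs)

/-- `H` embeds naturally into `G` -/
def Embeds : Prop :=
  ∀ w : FreeGroup (Fin n), FreeGroup.map some w ∈ N (ext rs r) → w ∈ N rs

end

/-- **Ivanov's question for left-orderable `H`.** Let `H = ⟨x_1, …, x_n | r_1, …, r_m⟩` be left-orderable,
`r` a word in `x_1, …, x_n, x`, `G = ⟨x_1, …, x_n, x | r_1, …, r_m, r⟩`.
If `r` is not conjugate to an element of `H` in `H * ⟨x⟩` (for instance, if the total exponent of `x` in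
`r` is not `0`), then `H` embeds naturally into `G`; if moreover the presentation of `H` is aspherical,
then the presentation of `G` is aspherical if and only if `G` is torsion-free, if and only if `r` is not
a proper power in `H * ⟨x⟩`. -/
theorem result :
    ∀ (n m : ℕ) (rs : Fin m → FreeGroup (Fin n)) (r : FreeGroup (Option (Fin n))),
      LeftOrderable (FreeGroup (Fin n) ⧸ N rs) →
      (exponent r ≠ 0 → ¬ ConjugateIntoH rs r) ∧
      (¬ ConjugateIntoH rs r →
        Embeds rs r ∧
        (Aspherical rs →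
          (Aspherical (ext rs r) ↔ TorsionFree (ext rs r)) ∧
          (TorsionFree (ext rs r) ↔ ¬ ProperPower rs r))) := by
  intro n m rs r hLO
  refine ⟨fun h => Pool.Agent.H341.FS.not_conjInto rs r h, fun hr => ?_⟩
  obtain ⟨h1, h2⟩ := Pool.Agent.H341.FS.iva_full rs r Pool.Agent.H341.FS.s_atf hLO hr
  refine ⟨h1, fun hP => ?_⟩
  obtain ⟨h3, h4, h5⟩ := h2 hP
  exact ⟨⟨h5, fun h => h4 (h3 h)⟩, h3, fun h => h5 (h4 h)⟩

end Pool.Agent.Results.MP_11cd85_al.LeftOrderableH
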